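import Mathlib
import Pool.Agent.Lib.MP_821f63_lc.Defs
import Pool.Agent.Lib.MP_821f63_lc.Lower
import Pool.Agent.Lib.MP_821f63_lc.Upper

namespace Pool.Agent.Results.MP_821f63_lc.BatchNotSubadditive

open Pool.Agent.Lib.MP_821f63_lc

theorem result : ASB (ZMod 3) 3 5 + ASB (ZMod 3) 3 2 < ASB (ZMod 3) 3 (5 + 2) := by
  have h5 : ASB (ZMod 3) 3 5 ≤ 9 := Nat.sInf_le ⟨G9, rank9, batch9⟩
  have h2 : ASB (ZMod 3) 3 2 ≤ 4 := Nat.sInf_le ⟨G4, rank4, batch4⟩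
  have h7 : 13 < ASB (ZMod 3) 3 (5 + 2) := by
    by_contra h
    obtain ⟨G, hG, hs⟩ := Nat.sInf_mem (s := {n | ∃ G : Matrix (Fin 3) (Fin n) (ZMod 3),
      G.rank = 3 ∧ ∀ s : Fin 7 → Fin n, Serves G (fun a => G.col (s a))})
      ⟨21, G21, rank21, batch21⟩
    exact no_short_code (not_lt.1 h) G hG fun j => hs fun _ => j
  omega

end Pool.Agent.Results.MP_821f63_lc.BatchNotSubadditive
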