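import Pool.Agent.Lib.MP_821f63_lc.BinLow

/-! Over the binary field subadditivity in `t` fails by a margin linear in the dimension, for
infinitely many `t` in each large dimension. -/

namespace Pool.Agent.Results.MP_821f63_lc.BinaryGap

open Pool.Agent.Lib.MP_821f63_lc

theorem result (k m : ℕ) (hk : 100000 ≤ k) (hm : 1 ≤ m) :
    ASB (ZMod 2) k 3 + ASB (ZMod 2) k (m * 2 ^ k) + k / 12 < ASP (ZMod 2) k (3 + m * 2 ^ k) :=
  gap hk hm

end Pool.Agent.Results.MP_821f63_lc.BinaryGap
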