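import Mathlib
import Pool.Agent.Lib.MP_821f63_lc.Defs
import Pool.Agent.Lib.MP_821f63_lc.Lower
import Pool.Agent.Lib.MP_821f63_lc.Upper

namespace Pool.Agent.Results.MP_821f63_lc.PIRNotSubadditive

open Pool.Agent.Lib.MP_821f63_lc

theorem result : ASP (ZMod 3) 3 5 + ASP (ZMod 3) 3 2 < ASP (ZMod 3) 3 (5 + 2) := by
  have h5 : ASP (ZMod 3) 3 5 ≤ 9 := Nat.sInf_le ⟨G9, rank9, fun j => batch9 fun _ => j⟩
  have h2 : ASP (ZMod 3) 3 2 ≤ 4 := Nat.sInf_le ⟨G4, rank4, fun j => batch4 fun _ => j⟩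
  have h7 : 13 < ASP (ZMod 3) 3 (5 + 2) := by
    by_contra h
    obtain ⟨G, hG, hs⟩ := Nat.sInf_mem (s := {n | ∃ G : Matrix (Fin 3) (Fin n) (ZMod 3),
      G.rank = 3 ∧ ∀ j, Serves G (fun _ : Fin 7 => G.col j)})
      ⟨21, G21, rank21, fun j => batch21 fun _ => j⟩
    exact no_short_code (not_lt.1 h) G hG hs
  omega

end Pool.Agent.Results.MP_821f63_lc.PIRNotSubadditive
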