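import Pool.Agent.FS.PirScale.Gen

/-! The optimal length of all-symbol PIR and batch codes scales linearly in the number of requests,
up to an additive constant that depends only on the field and the dimension. -/

namespace Pool.Agent.Results.MP_821f63_lc.ScalingBound

open Pool.Agent.FS.PirScale

theorem result (F : Type) [Field F] [Fintype F] (k d t u : ℕ) (ht : 1 ≤ t) :
    t * ASD F k d u ≤ u * ASD F k d t +
      Fintype.card F ^ k * (Fintype.card F ^ k * (2 ^ (Fintype.card F ^ k) + 1)) * t := by
  simpa using scaled (F := F) k d t u ht

end Pool.Agent.Results.MP_821f63_lc.ScalingBound
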